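import Pool.Agent.Helper27.EX.RDefs
import Pool.Agent.Helper62.EX.TB
import Pool.Agent.Helper57.EX.FS

/-!
# MP_2857a5_co : directed bare paths (module SG)
-/

set_option autoImplicit false

open Finset
open scoped Classical

namespace OT

noncomputable section

variable {n : ℕ}

/-- Number of ancestors. -/
def sg_dep (T : PTree n) (v : Fin n) : ℕ := (univ.filter fun u => T.Le u v).card

theorem sg_dep_par (T : PTree n) {v : Fin n} (hv : (v : ℕ) ≠ 0) :
    sg_dep T v = sg_dep T (T.par v) + 1 := by
  unfold sg_dep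
  have h : (univ.filter fun u => T.Le u v) = insert v (univ.filter fun u => T.Le u (T.par v)) := by
    ext u
    simp only [mem_filter, mem_univ, true_and, mem_insert]
    rw [PTree.le_iff]
    exact or_congr_right (and_iff_right hv)
  rw [h, card_insert_of_notMem]
  intro hm
  have h1 := (mem_filter.1 hm).2.le
  exact absurd (T.lt v hv) (not_lt.2 h1)

theorem sg_dep_Nb (T : PTree n) {u v : Fin n} (h : T.Nb u v) :
    sg_dep T u ≤ sg_dep T v + 1 ∧ sg_dep T v ≤ sg_dep T u + 1 := by
  rcases h with ⟨h0, h1⟩ | ⟨h0, h1⟩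
  · have := sg_dep_par T h0
    rw [h1] at this
    omega
  · have := sg_dep_par T h0
    rw [h1] at this
    omega

theorem sg_dep_ball (T : PTree n) (k : ℕ) {u v : Fin n} (h : v ∈ T.ball k u) :
    sg_dep T u ≤ sg_dep T v + k ∧ sg_dep T v ≤ sg_dep T u + k := by
  induction k generalizing v with
  | zero =>
    have : v = u := by simpa [PTree.ball] using h
    subst this
    omega
  | succ k ih =>
    unfold PTree.ball at h
    rcases mem_union.1 h with h | h
    · have := ih h
      omega
    · obtain ⟨w, hw, hwv⟩ := (mem_filter.1 h).2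
      have h1 := ih hw
      have h2 := sg_dep_Nb T hwv
      omega

/-- Vertices which are not the root, have one child, and the two arcs are consecutive. -/
def sg_good (T : PTree n) (v : Fin n) : Prop :=
  (v : ℕ) ≠ 0 ∧ T.nch v = 1 ∧ ∀ c ∈ T.ch v, T.sg c = T.sg v

theorem sg_src_or_snk (T : PTree n) (v : Fin n) (hv : (v : ℕ) ≠ 0) (h2 : T.nch v ≤ 1)
    (h : ¬ sg_good T v) : T.Src v ∨ T.Snk v := by
  have hch : ∀ c, c ∈ T.ch v ↔ (c : ℕ) ≠ 0 ∧ T.par c = v := fun c => by simp [PTree.ch]
  by_cases hs : T.sg v = true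
  · right
    intro u hu
    rcases hu with ⟨h0, h1, h3⟩ | ⟨h0, h1, h3⟩
    · -- child `u` with sg true
      apply h
      have hu : u ∈ T.ch v := (hch u).2 ⟨h0, h1⟩
      have hc : T.nch v = 1 := by
        have : 0 < T.nch v := card_pos.2 ⟨u, hu⟩
        omega
      refine ⟨hv, hc, fun c hc' => ?_⟩
      obtain ⟨a, ha⟩ := card_eq_one.1 hc
      rw [ha, mem_singleton] at hu hc'
      rw [hc', ← hu, h3, hs]
    · rw [hs] at h3
      exact absurd h3 (by decide)
  · have hs' : T.sg v = false := by simpa using hs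
    left
    intro u hu
    rcases hu with ⟨h0, h1, h3⟩ | ⟨h0, h1, h3⟩
    · exact hs h3
    · -- child `u` with sg false
      apply h
      have hu : u ∈ T.ch v := (hch u).2 ⟨h0, h1⟩
      have hc : T.nch v = 1 := by
        have : 0 < T.nch v := card_pos.2 ⟨u, hu⟩
        omega
      refine ⟨hv, hc, fun c hc' => ?_⟩
      obtain ⟨a, ha⟩ := card_eq_one.1 hc
      rw [ha, mem_singleton] at hu hc'
      rw [hc', ← hu, h3, hs']

theorem sg_sum_nch (T : PTree n) : ∑ v, T.nch v + (univ.filter fun v : Fin n => (v : ℕ) = 0).card = n := by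
  have h : ∑ v, T.nch v = (univ.filter fun v : Fin n => (v : ℕ) ≠ 0).card := by
    have := card_eq_sum_card_fiberwise (f := T.par)
      (s := univ.filter fun v : Fin n => (v : ℕ) ≠ 0) (t := univ) (fun _ _ => mem_coe.2 (mem_univ _))
    rw [this]
    refine sum_congr rfl fun v _ => ?_
    unfold PTree.nch PTree.ch
    congr 1
    ext c
    simp
  rw [h]
  have := card_filter_add_card_filter_not (s := (univ : Finset (Fin n)))
    (fun v : Fin n => (v : ℕ) = 0)
  rw [card_univ, Fintype.card_fin] at this
  rw [add_comm]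
  exact this

theorem sg_branch (T : PTree n) :
    (univ.filter fun v => 2 ≤ T.nch v).card ≤ (univ.filter fun v => T.nch v = 0).card := by
  have h := sg_sum_nch T
  have h1 : ∑ v : Fin n, (1 + (if 2 ≤ T.nch v then 1 else 0)) ≤
      ∑ v : Fin n, (T.nch v + (if T.nch v = 0 then 1 else 0)) := by
    refine sum_le_sum fun v _ => ?_
    split_ifs <;> omega
  rw [sum_add_distrib, sum_add_distrib, sum_boole, sum_boole] at h1
  simp only [sum_const, card_univ, Fintype.card_fin, smul_eq_mul, mul_one, Nat.cast_id] at h1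
  omega

theorem sg_card_bad (T : PTree n) (η : ℝ)
    (h1 : ((univ.filter fun v => T.Src v).card : ℝ) ≤ η * (n : ℝ))
    (h2 : ((univ.filter fun v => T.Snk v).card : ℝ) ≤ η * (n : ℝ)) :
    ((univ.filter fun v => ¬ sg_good T v).card : ℝ) ≤ 4 * η * (n : ℝ) + 1 := by
  set A := univ.filter fun v : Fin n => (v : ℕ) = 0
  set B := univ.filter fun v => 2 ≤ T.nch v
  set C := univ.filter fun v => T.Src v
  set D := univ.filter fun v => T.Snk v
  have hA : A.card ≤ 1 := card_le_one.2 fun a ha b hb => by
    have ha' := (mem_filter.1 ha).2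
    have hb' := (mem_filter.1 hb).2
    exact Fin.ext (ha'.trans hb'.symm)
  have hsub : (univ.filter fun v => ¬ sg_good T v) ⊆ A ∪ B ∪ (C ∪ D) := by
    intro v hv
    have hv' := (mem_filter.1 hv).2
    by_cases h0 : (v : ℕ) = 0
    · exact mem_union_left _ (mem_union_left _ (mem_filter.2 ⟨mem_univ _, h0⟩))
    by_cases h3 : 2 ≤ T.nch v
    · exact mem_union_left _ (mem_union_right _ (mem_filter.2 ⟨mem_univ _, h3⟩))
    · refine mem_union_right _ ?_
      rcases sg_src_or_snk T v h0 (by omega) hv' with h | h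
      · exact mem_union_left _ (mem_filter.2 ⟨mem_univ _, h⟩)
      · exact mem_union_right _ (mem_filter.2 ⟨mem_univ _, h⟩)
  have hB : B.card ≤ (C ∪ D).card := by
    refine (sg_branch T).trans (card_le_card fun v hv => ?_)
    have hv' := (mem_filter.1 hv).2
    have hne : ∀ c : Fin n, ¬ ((c : ℕ) ≠ 0 ∧ T.par c = v) := by
      intro c hc
      have : c ∈ T.ch v := by
        simp only [PTree.ch, mem_filter, mem_univ, true_and]
        exact hc
      have h4 : 0 < T.nch v := card_pos.2 ⟨c, this⟩
      omega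
    by_cases hs : T.sg v = true
    · refine mem_union_right _ (mem_filter.2 ⟨mem_univ _, fun u hu => ?_⟩)
      rcases hu with ⟨h0, h1, h3⟩ | ⟨h0, h1, h3⟩
      · exact hne u ⟨h0, h1⟩
      · rw [hs] at h3
        exact absurd h3 (by decide)
    · refine mem_union_left _ (mem_filter.2 ⟨mem_univ _, fun u hu => ?_⟩)
      rcases hu with ⟨h0, h1, h3⟩ | ⟨h0, h1, h3⟩
      · exact hs h3
      · exact hne u ⟨h0, h1⟩
  have hCD : (C ∪ D).card ≤ C.card + D.card := card_union_le _ _
  have h5 : (univ.filter fun v => ¬ sg_good T v).card ≤ 1 + 2 * (C.card + D.card) := by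
    refine (card_le_card hsub).trans ((card_union_le _ _).trans ?_)
    have := card_union_le A B
    omega
  have h6 : ((univ.filter fun v => ¬ sg_good T v).card : ℝ) ≤ 1 + 2 * (C.card + D.card) := by
    exact_mod_cast h5
  linarith

theorem sg_iter_ball (T : PTree n) (v : Fin n) (j : ℕ)
    (h : ∀ i < j, ((T.par^[i] v : Fin n) : ℕ) ≠ 0) : T.par^[j] v ∈ T.ball j v := by
  induction j with
  | zero => exact T.self_mem_ball 0 v
  | succ j ih =>
    have h1 := ih fun i hi => h i (by omega)
    rw [Function.iterate_succ_apply']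
    refine PTree.ball_trans h1 ?_
    exact PTree.Nb.mem_ball (Or.inr ⟨h j (by omega), rfl⟩)

/-- Facts on the chain above a deep good vertex. -/
theorem sg_chain (T : PTree n) (v : Fin n) (h : ∀ j ≤ 20, sg_good T (T.par^[j] v)) :
    (∀ j < 20, ∀ y, T.Nb (T.par^[j + 1] v) y → y = T.par^[j] v ∨ y = T.par^[j + 2] v) ∧
    (∀ j ≤ 20, T.sg (T.par^[j] v) = T.sg v) ∧
    (∀ j ≤ 20, sg_dep T (T.par^[j] v) + j = sg_dep T v) := by
  refine ⟨fun j hj y hy => ?_, fun j hj => ?_, fun j hj => ?_⟩
  · rcases hy with ⟨h0, h1⟩ | ⟨h0, h1⟩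
    · left
      have hg := h (j + 1) (by omega)
      have hy' : y ∈ T.ch (T.par^[j + 1] v) := by
        simp only [PTree.ch, mem_filter, mem_univ, true_and]
        exact ⟨h0, h1⟩
      have hx' : T.par^[j] v ∈ T.ch (T.par^[j + 1] v) := by
        simp only [PTree.ch, mem_filter, mem_univ, true_and]
        exact ⟨(h j (by omega)).1, (Function.iterate_succ_apply' _ _ _).symm⟩
      obtain ⟨a, ha⟩ := card_eq_one.1 hg.2.1
      rw [ha, mem_singleton] at hy' hx'
      rw [hy', hx']
    · right
      rw [← h1]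
      exact (Function.iterate_succ_apply' T.par (j + 1) v).symm
  · induction j with
    | zero => rfl
    | succ j ih =>
      rw [← ih (by omega)]
      have hg := h (j + 1) hj
      have hx' : T.par^[j] v ∈ T.ch (T.par^[j + 1] v) := by
        simp only [PTree.ch, mem_filter, mem_univ, true_and]
        exact ⟨(h j (by omega)).1, (Function.iterate_succ_apply' _ _ _).symm⟩
      exact (hg.2.2 _ hx').symm
  · induction j with
    | zero => rfl
    | succ j ih =>
      have h1 := ih (by omega)
      have h2 := sg_dep_par T (h j (by omega)).1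
      rw [Function.iterate_succ_apply']
      omega

theorem sg_pos (T : PTree n) (pos : Fin n → Bool) (v : Fin n) (m : ℕ)
    (h : ∀ j < m, pos (T.par^[j] v) ≠ pos (T.par^[j + 1] v)) (j : ℕ) (hj : j ≤ m) :
    pos (T.par^[j] v) = xor (pos v) (decide (Odd j)) := by
  induction j with
  | zero => simp
  | succ j ih =>
    have h1 := ih (by omega)
    have h2 := h j (by omega)
    rw [h1] at h2
    generalize pos (T.par^[j + 1] v) = q at h2 ⊢
    generalize pos v = r at h2 ⊢
    rcases Nat.even_or_odd j with hj' | hj'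
    · have hj2 : Odd (j + 1) := hj'.add_one
      have hj3 : ¬ Odd j := Nat.not_odd_iff_even.2 hj'
      simp only [hj2, hj3, decide_true, decide_false] at h2 ⊢
      revert h2
      revert q r
      decide
    · have hj2 : ¬ Odd (j + 1) := Nat.not_odd_iff_even.2 hj'.add_one
      simp only [hj2, hj', decide_true, decide_false] at h2 ⊢
      revert h2
      revert q r
      decide

/-- All vertices of the chain above `v` are good and `Bad` is far away. -/
def sg_ok (T : PTree n) (Bad : Finset (Fin n)) (v : Fin n) : Prop :=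
  (∀ j ≤ 20, sg_good T (T.par^[j] v)) ∧ ∀ b ∈ Bad, b ∉ T.ball 60 v

/-- The index (in the chain of ancestors) of the `i`-th vertex of the segment. -/
def sg_idx (T : PTree n) (pos : Fin n → Bool) (v : Fin n) (i : ℕ) : ℕ :=
  (if pos v = true then 2 else 1) + if T.sg v = true then 8 - i else i

theorem segments (Δ : ℕ) : ∃ (η η' : ℝ) (N : ℕ), 0 < η ∧ 0 < η' ∧
    ∀ (n : ℕ) (T : PTree n), T.Deg Δ → N ≤ n →
    ((univ.filter fun v => T.Src v).card : ℝ) ≤ η * (n : ℝ) →
    ((univ.filter fun v => T.Snk v).card : ℝ) ≤ η * (n : ℝ) →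
    ∀ (pos : Fin n → Bool) (Bad : Finset (Fin n)), (Bad.card : ℝ) ≤ η' * (n : ℝ) →
    (∀ v : Fin n, (v : ℕ) ≠ 0 → v ∉ Bad → T.par v ∉ Bad → pos v ≠ pos (T.par v)) →
    ∃ (A : Finset (Fin n)) (seg : Fin n → ℕ → Fin n), η' * (n : ℝ) ≤ (A.card : ℝ) ∧
      Segs T pos Bad A seg := by
  have hP : (0 : ℝ) < ((Δ : ℝ) + 2) := by positivity
  refine ⟨1 / (16 * ((Δ : ℝ) + 2) ^ 20), 1 / (8 * ((Δ : ℝ) + 2) ^ 60), 8 * (Δ + 2) ^ 20,
    by positivity, by positivity, fun n T hT hn hsrc hsnk pos Bad hBad hpos => ?_⟩
  set NG := univ.filter fun v => ¬ sg_good T v with hNG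
  have hcard := sg_card_bad T _ hsrc hsnk
  -- the deep good vertices
  set S := univ.filter fun v => sg_ok T Bad v with hS
  have hcompl : Sᶜ ⊆ (NG.biUnion fun u => T.ball 20 u) ∪ Bad.biUnion fun b => T.ball 60 b := by
    intro v hv
    rw [mem_compl, hS, mem_filter] at hv
    simp only [mem_univ, true_and, sg_ok, not_and_or] at hv
    rcases hv with hv | hv
    · push Not at hv
      -- least index
      have hex : ∃ j, j ≤ 20 ∧ ¬ sg_good T (T.par^[j] v) := hv
      classical
      set j := Nat.find hex with hj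
      have hj1 := Nat.find_spec hex
      have hj2 : ∀ i < j, sg_good T (T.par^[i] v) := by
        intro i hi
        by_contra hcon
        exact Nat.find_min hex hi ⟨by omega, hcon⟩
      refine mem_union_left _ (mem_biUnion.2 ⟨T.par^[j] v, mem_filter.2 ⟨mem_univ _, hj1.2⟩, ?_⟩)
      have h1 := sg_iter_ball T v j fun i hi => (hj2 i hi).1
      exact T.ball_mono hj1.1 _ (PTree.mem_ball_comm.1 h1)
    · push Not at hv
      obtain ⟨b, hb, hb'⟩ := hv
      exact mem_union_right _ (mem_biUnion.2 ⟨b, hb, PTree.mem_ball_comm.1 hb'⟩)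
  have hc1 : (Sᶜ.card : ℝ) ≤ NG.card * ((Δ : ℝ) + 2) ^ 20 + Bad.card * ((Δ : ℝ) + 2) ^ 60 := by
    have h1 : Sᶜ.card ≤ NG.card * (Δ + 2) ^ 20 + Bad.card * (Δ + 2) ^ 60 := by
      refine (card_le_card hcompl).trans ((card_union_le _ _).trans (Nat.add_le_add ?_ ?_))
      · exact card_biUnion_le_card_mul _ _ _ fun u _ => T.card_ball hT 20 u
      · exact card_biUnion_le_card_mul _ _ _ fun u _ => T.card_ball hT 60 u
    exact_mod_cast h1
  have hnR : (8 * ((Δ : ℝ) + 2) ^ 20) ≤ (n : ℝ) := by exact_mod_cast hn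
  have hc2 : (NG.card : ℝ) * ((Δ : ℝ) + 2) ^ 20 ≤ 3 / 8 * (n : ℝ) := by
    calc (NG.card : ℝ) * ((Δ : ℝ) + 2) ^ 20
        ≤ (4 * (1 / (16 * ((Δ : ℝ) + 2) ^ 20)) * (n : ℝ) + 1) * ((Δ : ℝ) + 2) ^ 20 :=
          mul_le_mul_of_nonneg_right hcard (by positivity)
      _ = (n : ℝ) / 4 + ((Δ : ℝ) + 2) ^ 20 := by
          field_simp
          ring
      _ ≤ 3 / 8 * (n : ℝ) := by linarith
  have hc3 : (Bad.card : ℝ) * ((Δ : ℝ) + 2) ^ 60 ≤ 1 / 8 * (n : ℝ) := by
    calc (Bad.card : ℝ) * ((Δ : ℝ) + 2) ^ 60
        ≤ (1 / (8 * ((Δ : ℝ) + 2) ^ 60) * (n : ℝ)) * ((Δ : ℝ) + 2) ^ 60 :=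
          mul_le_mul_of_nonneg_right hBad (by positivity)
      _ = 1 / 8 * (n : ℝ) := by
          field_simp
  have hSc : (n : ℝ) / 2 ≤ (S.card : ℝ) := by
    have h1 : (S.card : ℝ) + (Sᶜ.card : ℝ) = n := by
      have := card_add_card_compl S
      rw [Fintype.card_fin] at this
      exact_mod_cast this
    linarith
  obtain ⟨A, hAS, hsep, hAc⟩ := farset Δ 60 T hT S
  have hAc' : (S.card : ℝ) ≤ ((Δ : ℝ) + 2) ^ 60 * (A.card : ℝ) := by exact_mod_cast hAc
  set seg : Fin n → ℕ → Fin n := fun a i => T.par^[sg_idx T pos a i] a with hseg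
  have hidx : ∀ a i, i ≤ 8 → 1 ≤ sg_idx T pos a i ∧ sg_idx T pos a i ≤ 10 := by
    intro a i hi
    unfold sg_idx
    split_ifs <;> omega
  have hA1 : ∀ a ∈ A, ∀ j ≤ 20, sg_good T (T.par^[j] a) := fun a ha =>
    (mem_filter.1 (hAS ha)).2.1
  have hA2 : ∀ a ∈ A, ∀ b ∈ Bad, b ∉ T.ball 60 a := fun a ha =>
    (mem_filter.1 (hAS ha)).2.2
  have hball : ∀ a ∈ A, ∀ j ≤ 20, T.par^[j] a ∈ T.ball j a := fun a ha j hj =>
    sg_iter_ball T a j fun i hi => (hA1 a ha i (by omega)).1
  have hball10 : ∀ a ∈ A, ∀ i ≤ 8, seg a i ∈ T.ball 10 a := fun a ha i hi =>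
    T.ball_mono (hidx a i hi).2 _ (hball a ha _ (by have := hidx a i hi; omega))
  have hposA : ∀ a ∈ A, ∀ j ≤ 20, pos (T.par^[j] a) = xor (pos a) (decide (Odd j)) := by
    intro a ha j hj
    refine sg_pos T pos a 20 (fun i hi => ?_) j hj
    have hnb : ∀ k ≤ 20, T.par^[k] a ∉ Bad := by
      intro k hk hkb
      exact hA2 a ha _ hkb (T.ball_mono (by omega) _ (hball a ha k hk))
    have h1 := hpos (T.par^[i] a) (hA1 a ha i (by omega)).1 (hnb i (by omega))
    have h2 : T.par (T.par^[i] a) = T.par^[i + 1] a := (Function.iterate_succ_apply' _ _ _).symm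
    rw [h2] at h1
    exact h1 (hnb (i + 1) (by omega))
  have hdep : ∀ a ∈ A, ∀ i ≤ 8, sg_dep T (seg a i) + sg_idx T pos a i = sg_dep T a := by
    intro a ha i hi
    exact (sg_chain T a (hA1 a ha)).2.2 _ (by have := hidx a i hi; omega)
  refine ⟨A, seg, ?_, ⟨?_, ?_, ?_, ?_, ?_, ?_, ?_⟩⟩
  · -- size of A
    have h1 : (n : ℝ) / 2 ≤ ((Δ : ℝ) + 2) ^ 60 * (A.card : ℝ) := hSc.trans hAc'
    rw [one_div, inv_mul_le_iff₀ (by positivity)]
    have h2 : (0 : ℝ) ≤ n := by positivity
    nlinarith
  · -- arcs
    intro a ha j hj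
    have hs := (sg_chain T a (hA1 a ha)).2.1
    by_cases hsg : T.sg a = true
    · have e1 : sg_idx T pos a j = sg_idx T pos a (j + 1) + 1 := by
        unfold sg_idx
        simp only [hsg, if_true]
        omega
      have hb := hidx a (j + 1) (by omega)
      left
      refine ⟨(hA1 a ha _ (by omega)).1, ?_, ?_⟩
      · simp only [hseg]
        rw [e1, Function.iterate_succ_apply']
      · rw [← hsg]
        exact hs _ (by omega)
    · have hsg' : T.sg a = false := by simpa using hsg
      have e1 : sg_idx T pos a (j + 1) = sg_idx T pos a j + 1 := by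
        unfold sg_idx
        simp only [hsg', Bool.false_eq_true, if_false]
        omega
      have hb := hidx a j (by omega)
      right
      refine ⟨(hA1 a ha _ (by omega)).1, ?_, ?_⟩
      · simp only [hseg]
        rw [e1, Function.iterate_succ_apply']
      · rw [← hsg']
        exact hs _ (by omega)
  · -- degrees
    intro a ha j hj y hy
    have hc := (sg_chain T a (hA1 a ha)).1
    by_cases hsg : T.sg a = true
    · have e1 : sg_idx T pos a j = sg_idx T pos a (j + 2) + 2 := by
        unfold sg_idx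
        simp only [hsg, if_true]
        omega
      have e2 : sg_idx T pos a (j + 1) = sg_idx T pos a (j + 2) + 1 := by
        unfold sg_idx
        simp only [hsg, if_true]
        omega
      have hb := hidx a (j + 2) (by omega)
      simp only [hseg] at hy ⊢
      rw [e2] at hy
      rw [e1]
      exact (hc _ (by omega) y hy).symm
    · have hsg' : T.sg a = false := by simpa using hsg
      have e1 : sg_idx T pos a (j + 2) = sg_idx T pos a j + 2 := by
        unfold sg_idx
        simp only [hsg', Bool.false_eq_true, if_false]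
        omega
      have e2 : sg_idx T pos a (j + 1) = sg_idx T pos a j + 1 := by
        unfold sg_idx
        simp only [hsg', Bool.false_eq_true, if_false]
        omega
      have hb := hidx a j (by omega)
      simp only [hseg] at hy ⊢
      rw [e2] at hy
      rw [e1]
      exact hc _ (by omega) y hy
  · -- positions
    intro a ha j hj
    have hb := hidx a j hj
    simp only [hseg]
    rw [hposA a ha _ (by omega)]
    have hodd : decide (Odd (sg_idx T pos a j)) = xor (!(pos a)) (!(decide (Even j))) := by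
      unfold sg_idx
      have h8 : Even (8 - j) ↔ Even j := by
        rw [Nat.even_sub (by omega)]
        have h8' : Even 8 := by decide
        simp only [h8', true_iff]
      have hj' : Even (if T.sg a = true then 8 - j else j) ↔ Even j := by
        split_ifs
        · exact h8
        · rfl
      generalize (if T.sg a = true then 8 - j else j) = k at hj' ⊢
      by_cases hp : pos a = true
      · simp only [hp, if_true]
        by_cases he : Even j
        · have hk : Even k := hj'.2 he
          have : ¬ Odd (2 + k) := by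
            rw [Nat.not_odd_iff_even]
            exact (by decide : Even 2).add hk
          simp [this, he]
        · have hk : Odd k := Nat.not_even_iff_odd.1 fun h => he (hj'.1 h)
          have : Odd (2 + k) := (by decide : Even 2).add_odd hk
          simp [this, he]
      · have hp' : pos a = false := by simpa using hp
        simp only [hp', Bool.false_eq_true, if_false]
        by_cases he : Even j
        · have hk : Even k := hj'.2 he
          have : Odd (1 + k) := (by decide : Odd 1).add_even hk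
          simp [this, he]
        · have hk : Odd k := Nat.not_even_iff_odd.1 fun h => he (hj'.1 h)
          have : ¬ Odd (1 + k) := by
            rw [Nat.not_odd_iff_even]
            exact (by decide : Odd 1).add_odd hk
          simp [this, he]
    rw [hodd]
    cases pos a <;> cases decide (Even j) <;> rfl
  · -- injectivity
    intro a ha j j' hj hj' he
    have h1 := hdep a ha j hj
    have h2 := hdep a ha j' hj'
    rw [he] at h1
    have h3 : sg_idx T pos a j = sg_idx T pos a j' := by omega
    unfold sg_idx at h3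
    split_ifs at h3 <;> omega
  · -- distances
    intro a ha j j' hjj hj'
    have h1 := hdep a ha j (by omega)
    have h2 := hdep a ha j' hj'
    have h3 : sg_idx T pos a j + 4 ≤ sg_idx T pos a j' ∨
        sg_idx T pos a j' + 4 ≤ sg_idx T pos a j := by
      unfold sg_idx
      split_ifs <;> omega
    constructor
    · intro hcon
      have := sg_dep_ball T 3 hcon
      omega
    · intro hcon
      have := sg_dep_ball T 3 hcon
      omega
  · -- separation
    intro a ha a' ha' hne j j' hj hj' hcon
    have h1 := hball10 a ha j hj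
    have h2 := hball10 a' ha' j' hj'
    have h3 := PTree.ball_trans h1 hcon
    have h4 := PTree.ball_trans h3 (PTree.mem_ball_comm.1 h2)
    exact hsep a ha a' ha' hne (T.ball_mono (by omega) _ h4)
  · -- bad
    intro a ha j hj b hb hcon
    have h1 := hball10 a ha j hj
    have h2 := PTree.ball_trans h1 (PTree.mem_ball_comm.1 hcon)
    exact hA2 a ha b hb (T.ball_mono (by omega) _ h2)

end

end OT
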